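import Pool.Agent.Helper11.LE.Goals2
import Pool.Agent.Helper84.RS.KUM

/-!
# Project LE (MP_fc6b1e_nt), packet LE-SUP: the support lemma
-/

set_option autoImplicit false

namespace Pool.Agent.Helper19.LE

open NumberField Module IsDedekindDomain Pool.Agent.Helper51.RP Pool.Agent.Helper11.LE
open Pool.Agent.Helper38.RS (pz)

section chars

variable {p : ℕ} [Fact p.Prime]

/-- The real part of the standard additive character. -/
noncomputable def e (x : ZMod p) : ℝ := (ZMod.stdAddChar x : ℂ).re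

lemma e_cos (x : ZMod p) : e x = Real.cos (2 * Real.pi * (x.val : ℝ) / p) := by
  unfold e
  rw [ZMod.stdAddChar_apply, ZMod.toCircle_eq_circleExp, Circle.coe_exp, Complex.exp_ofReal_mul_I_re]
  congr 1
  ring

lemma e_zero : e (0 : ZMod p) = 1 := by
  unfold e
  rw [AddChar.map_zero_eq_one, Complex.one_re]

lemma std_norm (x : ZMod p) : ‖(ZMod.stdAddChar x : ℂ)‖ = 1 := AddChar.norm_apply _ _

lemma e_le_one (x : ZMod p) : e x ≤ 1 := by
  unfold e
  exact (Complex.re_le_norm _).trans (std_norm x).le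

lemma abs_e_le (x : ZMod p) : |e x| ≤ 1 := by
  unfold e
  exact (Complex.abs_re_le_norm _).trans (std_norm x).le

lemma sq_add (x : ZMod p) : (ZMod.stdAddChar x : ℂ).re ^ 2 + (ZMod.stdAddChar x : ℂ).im ^ 2 = 1 := by
  have h := Complex.sq_norm (ZMod.stdAddChar x : ℂ)
  rw [std_norm, Complex.normSq_apply] at h
  nlinarith [h]

lemma e_mul (x y : ZMod p) : e x * e y = (e (x + y) + e (x - y)) / 2 := by
  have h1 : (ZMod.stdAddChar (x - y) : ℂ) = ZMod.stdAddChar x * (starRingEnd ℂ) (ZMod.stdAddChar y) := by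
    rw [sub_eq_add_neg, AddChar.map_add_eq_mul, AddChar.map_neg_eq_inv]
    congr 1
    rw [Complex.inv_def, Complex.normSq_eq_norm_sq, std_norm]
    simp
  unfold e
  rw [h1, AddChar.map_add_eq_mul, Complex.mul_re, Complex.mul_re, Complex.conj_re, Complex.conj_im]
  ring

lemma one_sub_e (x y : ZMod p) : 1 - e (x + y) ≤ 2 * (1 - e x) + 2 * (1 - e y) := by
  have h1 := e_le_one x
  have h2 := e_le_one y
  have h3 := sq_add x
  have h4 := sq_add y
  unfold e at *
  rw [AddChar.map_add_eq_mul, Complex.mul_re]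
  generalize (ZMod.stdAddChar x : ℂ).re = a at *
  generalize (ZMod.stdAddChar x : ℂ).im = b at *
  generalize (ZMod.stdAddChar y : ℂ).re = c at *
  generalize (ZMod.stdAddChar y : ℂ).im = d at *
  nlinarith [sq_nonneg (b - d), mul_nonneg (sub_nonneg.2 h1) (sub_nonneg.2 h2),
    sq_nonneg (1 - a), sq_nonneg (1 - c)]

/-- The pairing. -/
def dt {n : ℕ} (c w : Fin n → ZMod p) : ZMod p := ∑ i, c i * w i

lemma dt_add {n : ℕ} (c w w' : Fin n → ZMod p) : dt c (w + w') = dt c w + dt c w' := by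
  unfold dt
  rw [← Finset.sum_add_distrib]
  exact Finset.sum_congr rfl fun i _ => by rw [Pi.add_apply, mul_add]

lemma dt_sub {n : ℕ} (c w w' : Fin n → ZMod p) : dt c (w - w') = dt c w - dt c w' := by
  unfold dt
  rw [← Finset.sum_sub_distrib]
  exact Finset.sum_congr rfl fun i _ => by rw [Pi.sub_apply, mul_sub]

lemma dt_zero {n : ℕ} (c : Fin n → ZMod p) : dt c (0 : Fin n → ZMod p) = 0 := by
  unfold dt
  exact Finset.sum_eq_zero fun i _ => by rw [Pi.zero_apply, mul_zero]

/-- Orthogonality. -/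
lemma orth {n : ℕ} (w : Fin n → ZMod p) [Decidable (w = 0)] :
    ∑ c : Fin n → ZMod p, e (dt c w) = if w = 0 then (p : ℝ) ^ n else 0 := by
  classical
  let φ : (Fin n → ZMod p) →+ ZMod p :=
    { toFun := fun c => dt c w
      map_zero' := by
        unfold dt
        exact Finset.sum_eq_zero fun i _ => by rw [Pi.zero_apply, zero_mul]
      map_add' := by
        intro c c'
        unfold dt
        rw [← Finset.sum_add_distrib]
        exact Finset.sum_congr rfl fun i _ => by rw [Pi.add_apply, add_mul] }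
  let ψ : AddChar (Fin n → ZMod p) ℂ := (ZMod.stdAddChar (N := p)).compAddMonoidHom φ
  have h1 : ∑ c : Fin n → ZMod p, e (dt c w) = (∑ c, ψ c).re := by
    rw [Complex.re_sum]
    rfl
  rw [h1, AddChar.sum_eq_ite]
  by_cases hw : w = 0
  · have h2 : ψ = 0 := by
      apply AddChar.ext
      intro c
      change (ZMod.stdAddChar (dt c w) : ℂ) = 1
      rw [hw, dt_zero, AddChar.map_zero_eq_one]
    rw [if_pos h2, if_pos hw]
    simp only [Fintype.card_pi, Finset.prod_const, Finset.card_univ, Fintype.card_fin, ZMod.card,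
      Nat.cast_pow]
    rw [← Complex.ofReal_natCast, ← Complex.ofReal_pow, Complex.ofReal_re]
  · have h2 : ψ ≠ 0 := by
      intro h
      apply hw
      funext i
      have h3 : ψ (Pi.single i 1) = 1 := by
        rw [h]
        rfl
      have h4 : (ZMod.stdAddChar (dt (Pi.single i 1) w) : ℂ) = 1 := h3
      have h5 : dt (Pi.single i (1 : ZMod p)) w = w i := by
        unfold dt
        rw [Finset.sum_eq_single i]
        · rw [Pi.single_eq_same, one_mul]
        · intro j _ hj
          rw [Pi.single_eq_of_ne hj, zero_mul]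
        · intro h
          exact absurd (Finset.mem_univ _) h
      rw [h5, ← AddChar.map_zero_eq_one (ZMod.stdAddChar (N := p)),
        ZMod.injective_stdAddChar.eq_iff] at h4
      exact h4
    rw [if_neg h2, if_neg hw, Complex.zero_re]

lemma orth2 {n : ℕ} (h w : Fin n → ZMod p) [Decidable (w = h)] [Decidable (w = -h)] :
    ∑ c : Fin n → ZMod p, e (dt c w) * e (dt c h) =
      ((if w = -h then (p : ℝ) ^ n else 0) + (if w = h then (p : ℝ) ^ n else 0)) / 2 := by
  classical
  have h1 : ∀ c : Fin n → ZMod p, e (dt c w) * e (dt c h) =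
      (e (dt c (w + h)) + e (dt c (w - h))) / 2 := by
    intro c
    rw [e_mul, dt_add, dt_sub]
  rw [Finset.sum_congr rfl fun c _ => h1 c, ← Finset.sum_div, Finset.sum_add_distrib, orth, orth]
  simp only [sub_eq_zero, add_eq_zero_iff_eq_neg]

end chars

theorem l_sup (h1 : L_CHB) : L_SUP := by
  classical
  intro p _ F _ _ _ 𝔪 n η hη g g' hg hg' hT hT'
  obtain ⟨I, hI0, hI, hIg⟩ := hg
  obtain ⟨I', hI0', hI', hIg'⟩ := hg'
  obtain ⟨T, hT⟩ := hT
  obtain ⟨T', hT'⟩ := hT'
  -- the characters which are trivial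
  let P : Finset (Fin n → ZMod p) := Finset.univ.filter fun c =>
    ∀ J : Ideal (𝓞 F), J ≠ ⊥ → J ⊔ 𝔪 = ⊤ → ∑ i, c i * η i J = 0
  have hP : ∀ c, c ∈ P ↔ ∀ J : Ideal (𝓞 F), J ≠ ⊥ → J ⊔ 𝔪 = ⊤ → ∑ i, c i * η i J = 0 := by
    intro c
    simp [P]
  let ev : HeightOneSpectrum (𝓞 F) → Fin n → ZMod p := fun v i => η i v.asIdeal
  let a : ℝ → HeightOneSpectrum (𝓞 F) → ℝ := fun s v => (Ideal.absNorm v.asIdeal : ℝ) ^ (-s)
  let V : Set (HeightOneSpectrum (𝓞 F)) := {v | v.asIdeal ⊔ 𝔪 = ⊤}
  let b : ℝ → HeightOneSpectrum (𝓞 F) → ℝ := fun s v => V.indicator (a s) v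
  let A : (Fin n → ZMod p) → ℝ → ℝ := fun c s => ∑' v, e (dt c (ev v)) * b s v
  have ha0 : ∀ s v, 0 ≤ a s v := fun s v => Real.rpow_nonneg (Nat.cast_nonneg _) _
  have hb0 : ∀ s v, 0 ≤ b s v := fun s v => Set.indicator_nonneg (fun v _ => ha0 s v) v
  have hsa : ∀ s, 1 < s → Summable (a s) := fun s hs => Pool.Agent.Helper84.RS.summable_norm F s hs
  have hsb : ∀ s, 1 < s → Summable (b s) := fun s hs => (hsa s hs).indicator V
  have hse : ∀ (c : Fin n → ZMod p) s, 1 < s → Summable fun v => e (dt c (ev v)) * b s v := by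
    intro c s hs
    refine Summable.of_norm_bounded (hsb s hs) fun v => ?_
    rw [norm_mul, Real.norm_eq_abs, Real.norm_eq_abs, abs_of_nonneg (hb0 s v)]
    exact mul_le_of_le_one_left (hb0 s v) (abs_e_le _)
  -- upper bounds for the nontrivial characters
  have hub : ∀ c : Fin n → ZMod p, ∃ C : ℝ, c ∉ P → ∀ s : ℝ, 1 < s → s ≤ 2 → A c s ≤ C := by
    intro c
    by_cases hc : c ∈ P
    · exact ⟨0, fun h => absurd hc h⟩
    have hpsi : IsPsi p 𝔪 fun J => ∑ i, c i * η i J :=
      { ne := hη.ne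
        mul := by
          intro J J' h1 h2 h3 h4
          rw [← Finset.sum_add_distrib]
          exact Finset.sum_congr rfl fun i _ => by rw [hη.mul i J J' h1 h2 h3 h4, mul_add]
        ray := by
          intro α h1 h2
          exact Finset.sum_eq_zero fun i _ => by rw [hη.ray i α h1 h2, mul_zero]
        nontriv := by
          rw [hP] at hc
          push Not at hc
          exact hc }
    obtain ⟨C, hC⟩ := h1 p F 𝔪 _ hpsi
    refine ⟨C, fun _ s hs hs2 => ?_⟩
    have h2 := hC s hs hs2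
    refine le_trans (le_of_eq ?_) h2
    have h3 : ∀ v, e (dt c (ev v)) * b s v =
        V.indicator (fun v => e (dt c (ev v)) * a s v) v := by
      intro v
      by_cases hv : v ∈ V
      · simp only [b, Set.indicator_of_mem hv]
      · simp only [b, Set.indicator_of_notMem hv, mul_zero]
    change ∑' v, e (dt c (ev v)) * b s v = _
    rw [tsum_congr h3, ← tsum_subtype V (fun v => e (dt c (ev v)) * a s v)]
    refine tsum_congr fun v => ?_
    rw [e_cos]
    rfl
  choose C hC using hub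
  set C₀ : ℝ := ∑ c, |C c| with hC₀
  have hC1 : ∀ c, C c ≤ C₀ := fun c => (le_abs_self _).trans
    (Finset.single_le_sum (f := fun c => |C c|) (fun _ _ => abs_nonneg _) (Finset.mem_univ c))
  have hC0 : 0 ≤ C₀ := Finset.sum_nonneg fun _ _ => abs_nonneg _
  -- the trivial characters
  have hA0 : ∀ c ∈ P, ∀ s, A c s = ∑' v, b s v := by
    intro c hc s
    refine tsum_congr fun v => ?_
    by_cases hv : v ∈ V
    · have : dt c (ev v) = 0 := (hP c).1 hc v.asIdeal v.ne_bot hv
      rw [this, e_zero, one_mul]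
    · simp only [b, Set.indicator_of_notMem hv, mul_zero]
  have hdg : ∀ c ∈ P, dt c g = 0 := by
    intro c hc
    have := (hP c).1 hc I hI0 hI
    unfold dt
    rw [← this]
    exact Finset.sum_congr rfl fun i _ => by rw [hIg i]
  have hdg' : ∀ c ∈ P, dt c g' = 0 := by
    intro c hc
    have := (hP c).1 hc I' hI0' hI'
    unfold dt
    rw [← this]
    exact Finset.sum_congr rfl fun i _ => by rw [hIg' i]
  -- the two bounds for the sums over the primes with given value
  set M : ℝ := (p : ℝ) ^ n with hM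
  have hM0 : 0 ≤ M := by positivity
  let S : (Fin n → ZMod p) → ℝ → ℝ := fun h s => ∑ c, e (dt c h) * A c s
  have hS1 : ∀ (h : Fin n → ZMod p) s, 1 < s → S h s =
      ∑' v, (∑ c, e (dt c (ev v)) * e (dt c h)) * b s v := by
    intro h s hs
    have h2 : ∀ c : Fin n → ZMod p, e (dt c h) * A c s =
        ∑' v, e (dt c (ev v)) * e (dt c h) * b s v := by
      intro c
      change e (dt c h) * ∑' v, e (dt c (ev v)) * b s v = _
      rw [← tsum_mul_left]
      exact tsum_congr fun v => by ring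
    change ∑ c, e (dt c h) * A c s = _
    rw [Finset.sum_congr rfl fun c _ => h2 c, ← Summable.tsum_finsetSum]
    · refine tsum_congr fun v => ?_
      rw [Finset.sum_mul]
    · intro c _
      have := (hse c s hs).mul_left (e (dt c h))
      refine this.congr fun v => ?_
      ring
  have hpz : ∀ (h : Fin n → ZMod p) s, pz (Pr p 𝔪 n η h) s =
      ∑' v, (Pr p 𝔪 n η h).indicator (a s) v := by
    intro h s
    unfold Pool.Agent.Helper38.RS.pz
    exact tsum_subtype (Pr p 𝔪 n η h) (a s)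
  have hmem : ∀ (h : Fin n → ZMod p) v, v ∈ Pr p 𝔪 n η h ↔ v ∈ V ∧ (ev v = h ∨ ev v = -h) := by
    intro h v
    unfold Pr
    simp only [Set.mem_ofPred_eq, V, ev, funext_iff, Pi.neg_apply]
  have hterm : ∀ (h : Fin n → ZMod p) s v,
      M / 2 * (Pr p 𝔪 n η h).indicator (a s) v ≤
        (∑ c, e (dt c (ev v)) * e (dt c h)) * b s v ∧
      (∑ c, e (dt c (ev v)) * e (dt c h)) * b s v ≤
        M * (Pr p 𝔪 n η h).indicator (a s) v := by
    intro h s v
    rw [orth2]
    by_cases hv : v ∈ V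
    · have hb : b s v = a s v := Set.indicator_of_mem hv _
      rw [hb]
      have h0 := ha0 s v
      by_cases h2 : ev v = h
      · have h3 : v ∈ Pr p 𝔪 n η h := (hmem h v).2 ⟨hv, Or.inl h2⟩
        rw [Set.indicator_of_mem h3, if_pos h2]
        have h4 : 0 ≤ (if ev v = -h then (p : ℝ) ^ n else 0) ∧
            (if ev v = -h then (p : ℝ) ^ n else 0) ≤ M := by
          split_ifs
          · exact ⟨hM0, le_rfl⟩
          · exact ⟨le_rfl, hM0⟩
        constructor
        · refine mul_le_mul_of_nonneg_right ?_ h0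
          linarith [h4.1]
        · refine mul_le_mul_of_nonneg_right ?_ h0
          linarith [h4.2]
      · by_cases h3 : ev v = -h
        · have h4 : v ∈ Pr p 𝔪 n η h := (hmem h v).2 ⟨hv, Or.inr h3⟩
          rw [Set.indicator_of_mem h4, if_pos h3, if_neg h2]
          constructor
          · refine mul_le_mul_of_nonneg_right ?_ h0
            linarith
          · refine mul_le_mul_of_nonneg_right ?_ h0
            linarith
        · have h4 : v ∉ Pr p 𝔪 n η h := fun h5 => ((hmem h v).1 h5).2.elim h2 h3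
          rw [Set.indicator_of_notMem h4, if_neg h3, if_neg h2]
          simp
    · have hb : b s v = 0 := Set.indicator_of_notMem hv _
      have h4 : v ∉ Pr p 𝔪 n η h := fun h5 => hv ((hmem h v).1 h5).1
      rw [Set.indicator_of_notMem h4, hb]
      simp
  have hsum1 : ∀ (h : Fin n → ZMod p) s, 1 < s →
      Summable fun v => (∑ c, e (dt c (ev v)) * e (dt c h)) * b s v := by
    intro h s hs
    simp_rw [Finset.sum_mul]
    refine summable_sum fun c _ => ?_
    have := (hse c s hs).mul_left (e (dt c h))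
    refine this.congr fun v => ?_
    ring
  have hsum2 : ∀ (h : Fin n → ZMod p) s, 1 < s →
      Summable fun v => (Pr p 𝔪 n η h).indicator (a s) v := fun h s hs => (hsa s hs).indicator _
  have hlo : ∀ (h : Fin n → ZMod p) s, 1 < s → M / 2 * pz (Pr p 𝔪 n η h) s ≤ S h s := by
    intro h s hs
    rw [hS1 h s hs, hpz, ← tsum_mul_left]
    exact ((hsum2 h s hs).mul_left _).tsum_le_tsum (fun v => (hterm h s v).1) (hsum1 h s hs)
  have hup : ∀ (h : Fin n → ZMod p) s, 1 < s → S h s ≤ M * pz (Pr p 𝔪 n η h) s := by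
    intro h s hs
    rw [hS1 h s hs, hpz, ← tsum_mul_left]
    exact (hsum1 h s hs).tsum_le_tsum (fun v => (hterm h s v).2) ((hsum2 h s hs).mul_left _)
  have hpz0 : ∀ (h : Fin n → ZMod p) s, 0 ≤ pz (Pr p 𝔪 n η h) s := by
    intro h s
    rw [hpz]
    exact tsum_nonneg fun v => Set.indicator_nonneg (fun v _ => ha0 s v) v
  -- the final computation
  set q : ℝ := (Pᶜ.card : ℝ) with hq
  have hq0 : 0 ≤ q := Nat.cast_nonneg _
  refine ⟨(2 / M) * (M * T + 2 * (C₀ * q) + 2 * (M * T + 2 * (C₀ * q)) +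
    2 * (M * T' + 2 * (C₀ * q))), fun s hs hs2 => ?_⟩
  let x : (Fin n → ZMod p) → ℝ := fun c => C₀ - A c s
  have hx0 : ∀ c ∈ Pᶜ, 0 ≤ x c := by
    intro c hc
    have := hC c (Finset.mem_compl.1 hc) s hs hs2
    have := hC1 c
    simp only [x]
    linarith
  let A₀ : ℝ := ∑' v, b s v
  let D : (Fin n → ZMod p) → ℝ := fun h => ∑ c ∈ Pᶜ, (1 - e (dt c h)) * x c
  let E : (Fin n → ZMod p) → ℝ := fun h => ∑ c ∈ Pᶜ, e (dt c h) * C₀
  have hE : ∀ h, |E h| ≤ C₀ * q := by
    intro h
    refine (Finset.abs_sum_le_sum_abs _ _).trans ?_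
    refine (Finset.sum_le_sum (g := fun _ => C₀) fun c _ => ?_).trans ?_
    · rw [abs_mul, abs_of_nonneg hC0]
      exact mul_le_of_le_one_left hC0 (abs_e_le _)
    · rw [Finset.sum_const, nsmul_eq_mul, mul_comm]
  have hD0 : ∀ h, 0 ≤ D h := fun h => Finset.sum_nonneg fun c hc =>
    mul_nonneg (sub_nonneg.2 (e_le_one _)) (hx0 c hc)
  have hSh : ∀ h : Fin n → ZMod p, (∀ c ∈ P, dt c h = 0) →
      S h s = P.card * A₀ + E h - ∑ c ∈ Pᶜ, x c + D h := by
    intro h hh
    change ∑ c, e (dt c h) * A c s = _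
    rw [← Finset.sum_add_sum_compl P]
    have h2 : ∑ c ∈ P, e (dt c h) * A c s = P.card * A₀ := by
      rw [Finset.sum_congr rfl fun c hc => by rw [hh c hc, e_zero, one_mul, hA0 c hc s],
        Finset.sum_const, nsmul_eq_mul]
    have h3 : ∑ c ∈ Pᶜ, e (dt c h) * A c s = E h - ∑ c ∈ Pᶜ, x c + D h := by
      simp only [E, D, x]
      rw [← Finset.sum_sub_distrib, ← Finset.sum_add_distrib]
      exact Finset.sum_congr rfl fun c _ => by ring
    rw [h2, h3]
    ring
  have hS0 : S 0 s = P.card * A₀ + E 0 - ∑ c ∈ Pᶜ, x c + D 0 := hSh 0 fun c _ => dt_zero c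
  have hSg := hSh g hdg
  have hSg' := hSh g' hdg'
  have hSgg := hSh (g + g') fun c hc => by rw [dt_add, hdg c hc, hdg' c hc, add_zero]
  have hD00 : D 0 = 0 := Finset.sum_eq_zero fun c _ => by rw [dt_zero, e_zero, sub_self, zero_mul]
  have hS00 : 0 ≤ S 0 s := le_trans (mul_nonneg (by positivity) (hpz0 0 s)) (hlo 0 s hs)
  have hDgg : D (g + g') ≤ 2 * D g + 2 * D g' := by
    simp only [D]
    rw [Finset.mul_sum, Finset.mul_sum, ← Finset.sum_add_distrib]
    refine Finset.sum_le_sum fun c hc => ?_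
    have h2 := one_sub_e (dt c g) (dt c g')
    rw [dt_add]
    nlinarith [hx0 c hc, mul_le_mul_of_nonneg_right h2 (hx0 c hc)]
  have hTg : S g s ≤ M * T := (hup g s hs).trans (mul_le_mul_of_nonneg_left (hT s hs hs2) hM0)
  have hTg' : S g' s ≤ M * T' := (hup g' s hs).trans (mul_le_mul_of_nonneg_left (hT' s hs hs2) hM0)
  have hfin : S (g + g') s ≤ M * T + 2 * (C₀ * q) + 2 * (M * T + 2 * (C₀ * q)) +
      2 * (M * T' + 2 * (C₀ * q)) := by
    have e0 := abs_le.1 (hE 0)
    have e1 := abs_le.1 (hE g)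
    have e2 := abs_le.1 (hE g')
    have e3 := abs_le.1 (hE (g + g'))
    have d1 := hD0 g
    have d2 := hD0 g'
    linarith [e0.1, e0.2, e1.1, e1.2, e2.1, e2.2, e3.1, e3.2]
  have hMpos : 0 < M := by
    have : (0 : ℝ) < p := by exact_mod_cast (Fact.out : p.Prime).pos
    positivity
  have h5 := hlo (g + g') s hs
  have h6 : pz (Pr p 𝔪 n η (g + g')) s = (2 / M) * (M / 2 * pz (Pr p 𝔪 n η (g + g')) s) := by
    field_simp
  rw [h6]
  exact mul_le_mul_of_nonneg_left (h5.trans hfin) (by positivity)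

end Pool.Agent.Helper19.LE
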